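import Pool.Agent.Lib.MP_c07d1e_lc.Gadgets

namespace Pool.Agent.Results.MP_c07d1e_lc.ClosedUnderUnion

open Pool.Agent.Lib.MP_c07d1e_lc

/-- For every finite terminal alphabet `A` with at least two letters, every countably infinite
set `X` of variables and every universe variable `w`, the FC[REG]-CQ languages are exactly the
FC[REG]-UCQ languages. -/
theorem result (A X : Type) [Finite A] [Nontrivial A] [Countable X] [Infinite X] (w : X) :
    cqClass A w = ucqClass A w :=
  classes_eq w

end Pool.Agent.Results.MP_c07d1e_lc.ClosedUnderUnion
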